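import Pool.Agent.K1H76.DK.Stm

/-! # Project DK (helper76), piece PROD -/

set_option autoImplicit false

namespace Pool.Agent.K1H43.DK

open Finset Pool.Agent.K1H76.DK

theorem t_PROD (h1 : S_LCM) (h2 : S_FAC) (h3 : S_MER) : S_PROD := by
  obtain ⟨C, hC0, hC⟩ := h3
  obtain ⟨hA, hB⟩ := h2
  refine ⟨C, hC0, fun m Y hm hY => ?_⟩
  have hm1 : 1 ≤ m := by omega
  set P := (Icc 1 Y).filter Nat.Prime with hP
  set g : ℕ → ℝ := fun p => ∑' e : ℕ, ((e : ℝ) + 1) ^ m / (p : ℝ) ^ e with hg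
  have hK : (1 : ℝ) ≤ (16 * (m : ℝ)) ^ m := by
    apply one_le_pow₀
    have : (1 : ℝ) ≤ m := by exact_mod_cast hm1
    linarith
  have hg0 : ∀ p ∈ P, 0 ≤ g p := fun p _ => tsum_nonneg (fun e => by positivity)
  have hle : ∀ p ∈ P, g p ≤ if p < 2 ^ m then (16 * (m : ℝ)) ^ m else Real.exp (2 ^ (m + 1) / p) := by
    intro p hp
    have hp2 : 2 ≤ p := (Finset.mem_filter.mp hp).2.two_le
    split_ifs with h
    · exact (hA m p hm1 hp2).2
    · exact hB m p hm (not_lt.mp h)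
  have hprod : ∏ p ∈ P, g p ≤ ∏ p ∈ P, (if p < 2 ^ m then (16 * (m : ℝ)) ^ m
      else Real.exp (2 ^ (m + 1) / p)) := Finset.prod_le_prod hg0 hle
  rw [Finset.prod_ite, Finset.prod_const, ← Real.exp_sum] at hprod
  have hcard : (P.filter (fun p => p < 2 ^ m)).card ≤ 2 ^ m := by
    calc (P.filter (fun p => p < 2 ^ m)).card ≤ (range (2 ^ m)).card := by
          apply Finset.card_le_card
          intro p hp
          exact mem_range.mpr (mem_filter.mp hp).2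
      _ = 2 ^ m := card_range _
  have e1 : ((16 * (m : ℝ)) ^ m) ^ (P.filter (fun p => p < 2 ^ m)).card ≤
      (16 * (m : ℝ)) ^ (m * 2 ^ m) := by
    calc ((16 * (m : ℝ)) ^ m) ^ (P.filter (fun p => p < 2 ^ m)).card
        ≤ ((16 * (m : ℝ)) ^ m) ^ (2 ^ m) := pow_le_pow_right₀ hK hcard
      _ = (16 * (m : ℝ)) ^ (m * 2 ^ m) := by rw [← pow_mul]
  have e2 : ∑ p ∈ P.filter (fun p => ¬ p < 2 ^ m), (2 : ℝ) ^ (m + 1) / p ≤
      2 ^ (m + 1) * (Real.log (Real.log Y) + C) := by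
    calc ∑ p ∈ P.filter (fun p => ¬ p < 2 ^ m), (2 : ℝ) ^ (m + 1) / p
        ≤ ∑ p ∈ P, (2 : ℝ) ^ (m + 1) / p :=
          Finset.sum_le_sum_of_subset_of_nonneg (Finset.filter_subset _ _)
            (fun p _ _ => by positivity)
      _ = 2 ^ (m + 1) * ∑ p ∈ P, (1 : ℝ) / p := by
          rw [Finset.mul_sum]
          refine Finset.sum_congr rfl (fun p _ => ?_)
          rw [mul_one_div]
      _ ≤ 2 ^ (m + 1) * (Real.log (Real.log Y) + C) :=
          mul_le_mul_of_nonneg_left (hC Y hY) (by positivity)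
  calc M m Y ≤ ∏ p ∈ P, g p := h1 m Y
    _ ≤ _ := hprod
    _ ≤ (16 * (m : ℝ)) ^ (m * 2 ^ m) * Real.exp (2 ^ (m + 1) * (Real.log (Real.log Y) + C)) :=
        mul_le_mul e1 (Real.exp_le_exp.mpr e2) (Real.exp_pos _).le (by positivity)

end Pool.Agent.K1H43.DK
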